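import Pool.Agent.Y886.PLB

/-!
# Every large integer `n`: many of the numbers `q (n, k)` have no small prime factor

There is `c > 0` such that for every large `n` at least `n ^ c` of the integers `k`, `1 ≤ k < n - 2`, are
such that `φ(k) + φ(n - k) / 2 + 1` has no prime factor `≤ c log n`.
-/

set_option autoImplicit false

namespace Pool.Agent.Results.MP_61a569_nt.EveryIntegerRough

open Filter

/-- `q n k = φ(k) + φ(n - k) / 2 + 1`. -/
def q (n k : ℕ) : ℕ := Nat.totient k + Nat.totient (n - k) / 2 + 1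

/-- The set of the `k`, `1 ≤ k < n - 2`, for which `q n k` has no prime factor `≤ y`. -/
def roughK (y : ℝ) (n : ℕ) : Set ℕ :=
  {k : ℕ | 1 ≤ k ∧ k + 2 < n ∧ ∀ p : ℕ, p.Prime → (p : ℝ) ≤ y → ¬ p ∣ q n k}

/-- **Every large integer.** -/
theorem result : ∃ c : ℝ, 0 < c ∧ ∀ᶠ n : ℕ in atTop,
    (n : ℝ) ^ c ≤ ((roughK (c * Real.log n) n).ncard : ℝ) := by
  obtain ⟨c, hc, h⟩ := Pool.Agent.Y886.PL.final
  refine ⟨c, hc, ?_⟩
  filter_upwards [h] with n hn
  have hl : 0 ≤ c * Real.log n := mul_nonneg hc.le (Real.log_natCast_nonneg n)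
  have he : roughK (c * Real.log n) n = Pool.Agent.Y886.PL.KS ⌊c * Real.log n⌋₊ n := by
    ext k
    constructor
    · rintro ⟨h1, h2, h3⟩
      exact ⟨h1, h2, fun p hp hpy => h3 p hp ((Nat.le_floor_iff hl).1 hpy)⟩
    · rintro ⟨h1, h2, h3⟩
      exact ⟨h1, h2, fun p hp hpy => h3 p hp ((Nat.le_floor_iff hl).2 hpy)⟩
  rw [he]
  exact hn

end Pool.Agent.Results.MP_61a569_nt.EveryIntegerRough
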