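import Pool.Agent.Y886.PPD

/-!
# A positive proportion of the integers `n`

For a positive proportion of the integers `n` there are at least `n / (log n) ^ 14` integers `k`,
`1 ≤ k < n - 2`, for which `q = φ(k) + φ(n - k) / 2 + 1` is prime, while each of `p_q - q - 1` and
`p_q - q + 1` has at most `(log n) ^ 11` divisors.
-/

set_option autoImplicit false

namespace Pool.Agent.Results.MP_61a569_nt.PositiveProportion

open Filter

/-- The `m`-th prime: `p 1 = 2`, `p 2 = 3`. -/
noncomputable def p (m : ℕ) : ℕ := Nat.nth Nat.Prime (m - 1)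

/-- `q n k = φ(k) + φ(n - k) / 2 + 1`. -/
def q (n k : ℕ) : ℕ := Nat.totient k + Nat.totient (n - k) / 2 + 1

/-- The number of the divisors of `m`. -/
def tau (m : ℕ) : ℕ := m.divisors.card

/-- The set of the `k`, `1 ≤ k < n - 2`, for which `q = q n k` is prime and each of `p_q - q - 1` and
`p_q - q + 1` has at most `(log n) ^ 11` divisors. -/
def goodK (n : ℕ) : Set ℕ := {k : ℕ | 1 ≤ k ∧ k + 2 < n ∧ (q n k).Prime ∧
  (tau (p (q n k) - q n k - 1) : ℝ) ≤ Real.log n ^ 11 ∧
  (tau (p (q n k) - q n k + 1) : ℝ) ≤ Real.log n ^ 11}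

/-- **A positive proportion of the integers.** -/
theorem result : ∃ c : ℝ, 0 < c ∧ ∀ᶠ x : ℕ in atTop,
    c * x ≤ (Set.ncard {n : ℕ | 32 ≤ n ∧ n ≤ x ∧
      (n : ℝ) / Real.log n ^ 14 ≤ ((goodK n).ncard : ℝ)} : ℝ) :=
  Pool.Agent.Y886.PP.good_card

end Pool.Agent.Results.MP_61a569_nt.PositiveProportion
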